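import Pool.Agent.Lib.FS80.B_WV
import Pool.Agent.Lib.FS80.B_MEM
import Pool.Agent.Lib.FS80.B_SUP
import Pool.Agent.Lib.FS80.B_PW
import Pool.Agent.Lib.FS80.B_ORD
import Pool.Agent.Lib.FS80.B_ICL
import Pool.Agent.Lib.FS80.B_UNIT
import Pool.Agent.Lib.FS80.B_AUT
import Pool.Agent.Lib.FS80.B_QT0
import Pool.Agent.Lib.FS80.B_QTU
import Pool.Agent.Lib.FS80.B_TRANS
import Pool.Agent.Lib.FS80.B_REC
import Pool.Agent.Lib.FS80.B_TRM
import Pool.Agent.Lib.FS80.B_STEP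
import Pool.Agent.Lib.FS80.B_DERb
import Pool.Agent.Lib.FS80.B_LIFT
import Pool.Agent.Lib.FS80.B_LIN
import Pool.Agent.Lib.FS80.B_LD
import Pool.Agent.Lib.FS80.B_NUM
import Pool.Agent.Lib.FS80.B_FS2
import Pool.Agent.Lib.FS80.B_NFSA
import Pool.Agent.Lib.FS80.B_VALA
import Pool.Agent.Lib.FS80.B_VALB
import Pool.Agent.Lib.FS80.B_UP2
import Pool.Agent.Lib.FS80.B_LOW2
import Pool.Agent.Lib.FS80.B_FIN2

/-! For every exponent `c > 0` with `2c` and `3c` not integers, a finitely supported integrally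
closed ideal of a three-dimensional regular local ring whose adjoint with exponent `c` is not
finitely supported. -/

namespace Pool.Agent.Results.MP_c724a1_al.RealExponent

open Pool.Agent.Lib.FS80

theorem result : ∀ c : ℝ, 0 < c → (∀ k : ℤ, 2 * c ≠ k) → (∀ k : ℤ, 3 * c ≠ k) →
    ∃ I : Set KK, I ⊆ R0 ∧ gen R0 I = I ∧ I ≠ {0} ∧ icl R0 I ⊆ I ∧ (supp R0 I).Finite ∧
      ¬ (supp R0 (adj c R0 I)).Finite := by
  have hSUP := bSUP bMEM
  have hPW := bPW bWV bMEM hSUP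
  have hORD := bORD bWV bMEM hSUP hPW
  have hICL := bICL bMEM
  have hA := bNFSA bWV bMEM hSUP hPW hICL bUNIT bAUT (bQT0 hPW) bTRANS bREC bTRM
  exact bFIN2 bWV bMEM hSUP hICL bNUM
    (bFS2 bUNIT (bSTEP hORD bUNIT bAUT (bQTU hPW) bTRANS bREC bTRM))
    (bNFSB bWV bMEM hSUP hPW bAUT (bQT0 hPW) bTRANS bREC bTRM hA)
    (bUP2 bWV bMEM hSUP (bVALA bMEM) bVALB) (bLOW2 (bLD bDERb bLIFT bLIN))

end Pool.Agent.Results.MP_c724a1_al.RealExponent
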